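import Pool.Agent.P.MP_65d1df_lc.Rate

/-! An explicit subpolynomial upper bound for the cost of the game, for all large lengths. -/

set_option autoImplicit false

namespace Pool.Agent.Results.MP_65d1df_lc.SubpolynomialCost

open Pool.Agent.P.MP_65d1df_lc

/-- The completed vector: position `σ i` carries the bit that the rule `A` assigns to the stream
`σ 0, …, σ i`, except that the last position carries `b`. -/
def word {n : ℕ} (A : List (Fin n) → Bool) (σ : Equiv.Perm (Fin n)) (b : Bool) (j : Fin n) : Bool :=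
  if (σ.symm j).val + 1 = n then b else A ((List.ofFn σ).take ((σ.symm j).val + 1))

/-- Bob's set contains the last position for every input. -/
def Correct {n : ℕ} (A : List (Fin n) → Bool) (B : (Fin n → Bool) → Finset (Fin n)) : Prop :=
  ∀ (σ : Equiv.Perm (Fin n)) (b : Bool) (i : Fin n), i.val + 1 = n → σ i ∈ B (word A σ b)

/-- The largest size of Bob's set over all inputs. -/
def cost {n : ℕ} (A : List (Fin n) → Bool) (B : (Fin n → Bool) → Finset (Fin n)) : ℕ :=
  Finset.univ.sup fun p : Equiv.Perm (Fin n) × Bool => (B (word A p.1 p.2)).card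

/-- The least cost of a protocol. -/
noncomputable def gameCost (n : ℕ) : ℕ :=
  sInf {k | ∃ (A : List (Fin n) → Bool) (B : (Fin n → Bool) → Finset (Fin n)),
    Correct A B ∧ cost A B = k}

theorem result (ε : ℝ) (hε : 0 < ε) : ∃ n₀ : ℕ, ∀ n : ℕ, n₀ ≤ n →
    (gameCost n : ℝ) ≤ Real.exp ((2 + ε) * √(Real.log n * Real.log (Real.log n))) := by
  obtain ⟨n₀, h⟩ := Filter.eventually_atTop.1 (rate_bound hε)
  refine ⟨n₀ + 1, fun n hn => ?_⟩
  obtain ⟨l, t, hl, hU, ht, hK⟩ := h n (by omega)
  obtain ⟨m, rfl⟩ : ∃ m, n = m + 1 := ⟨n - 1, by omega⟩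
  obtain ⟨B, hB, hwin⟩ := exists_win_all hl hU ht
  obtain ⟨A, hA⟩ := exists_protocol hwin
  have hc : Correct A B := by
    intro σ b i hi
    obtain rfl : i = Fin.last m := Fin.ext (by simpa using hi)
    convert hA σ b using 2
    funext j
    simp only [word, List.ofFn_eq_map, List.map_take, Fin.ext_iff, Fin.val_last, add_left_inj]
  refine le_trans ?_ hK
  have h1 : gameCost (m + 1) ≤ cost A B := Nat.sInf_le ⟨A, B, hc, rfl⟩
  exact Nat.cast_le.2 (h1.trans (Finset.sup_le fun p _ => hB _))

end Pool.Agent.Results.MP_65d1df_lc.SubpolynomialCost
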